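import Pool.Agent.K6.H36.PJ.Press3

/-!
# The exponential moments of the area and the mean area of self-avoiding polygons

Square-lattice self-avoiding polygons of perimeter `2 n`, area `A`, mean area `A_n`. The rate
`g(ε) = lim -(1/(2n)) log E_n[exp(-ε A)]` exists for all `ε ≥ 0` and controls all finite perimeters:
`E_n[exp(-ε A)] ≤ exp(ε + K (log n)² - 2 n g(ε))`. By Jensen's and Markov's inequalities this gives
lower bounds for the mean area and bounds for the lower tail of the area in terms of `g` with errors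
of the order `(log n)²`. In particular `g(ε) ≥ c ε^(2/3)` for small `ε` implies
`A_n ≥ c' n^(3/2) / log n`, and `A_n ≤ C n^(3/2)` for all `n` implies
`g(ε) ≤ C' (ε log(1/ε))^(2/3)`.

Method. Two polygons are joined at the last vertex of the top row of the first and the last vertex of
the bottom row of the second; the area of the join is the sum of the areas plus one, and the pair and
the root are recovered from the rooted join. So the exponential sums are supermultiplicative up to the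
factor `2 exp ε` without any loss from the choice of the root, and Fekete's lemma bounds the sums at
all finite perimeters. The number of the polygons is bounded below by `μ^(2n) exp(-K (log n)²)`
(starting file `MP_c0584e_pr.PolygonWalkRatio`).
-/

set_option autoImplicit false

namespace Pool.Agent.Results.MP_2250b1_co.AreaPressure

open Filter Topology

/-- a closed nearest-neighbour loop on `ℤ²` with `m` steps, rooted at the origin and oriented,
that visits no vertex twice -/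
def IsLoop (m : ℕ) (f : ZMod m → ℤ × ℤ) : Prop :=
  f 0 = 0 ∧ Function.Injective f ∧
    ∀ i : ZMod m, |(f (i + 1)).1 - (f i).1| + |(f (i + 1)).2 - (f i).2| = 1

/-- the edge from `f k` to `f (k+1)` is horizontal, joins the columns `x = a` and `x = a + 1`, and
has height larger than `b`: it lies above the unit cell `[a, a+1] × [b, b+1]` -/
def Above (m : ℕ) (f : ZMod m → ℤ × ℤ) (a b : ℤ) (k : ZMod m) : Prop :=
  (((f k).1 = a ∧ (f (k + 1)).1 = a + 1) ∨ ((f k).1 = a + 1 ∧ (f (k + 1)).1 = a)) ∧ b < (f k).2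

/-- the unit cell `[a, a+1] × [b, b+1]` is enclosed by the loop: the vertical ray from the cell
upwards crosses an odd number of edges -/
def Encl (m : ℕ) (f : ZMod m → ℤ × ℤ) (c : ℤ × ℤ) : Prop :=
  Odd (Nat.card {k : ZMod m // Above m f c.1 c.2 k})

/-- the area: the number of unit cells enclosed by the loop -/
noncomputable def area (m : ℕ) (f : ZMod m → ℤ × ℤ) : ℕ := Nat.card {c : ℤ × ℤ // Encl m f c}

/-- expectation under the uniform law on the (rooted, oriented) self-avoiding polygons of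
perimeter `2 n` -/
noncomputable def E (n : ℕ) (F : (ZMod (2 * n) → ℤ × ℤ) → ℝ) : ℝ :=
  (∑ᶠ f ∈ {f : ZMod (2 * n) → ℤ × ℤ | IsLoop (2 * n) f}, F f) /
    ({f : ZMod (2 * n) → ℤ × ℤ | IsLoop (2 * n) f}.ncard : ℝ)

/-- the mean area `A_n` -/
noncomputable def A (n : ℕ) : ℝ := E n (fun f => (area (2 * n) f : ℝ))

/-- the exponential moment `E_n[exp(-ε A)]` of the area -/
noncomputable def lap (n : ℕ) (ε : ℝ) : ℝ := E n (fun f => Real.exp (-(ε * area (2 * n) f)))

/-- the proportion of the self-avoiding polygons of perimeter `2 n` with area at most `r` -/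
noncomputable def small (n : ℕ) (r : ℝ) : ℝ :=
  ({f : ZMod (2 * n) → ℤ × ℤ | IsLoop (2 * n) f ∧ (area (2 * n) f : ℝ) ≤ r}.ncard : ℝ) /
    ({f : ZMod (2 * n) → ℤ × ℤ | IsLoop (2 * n) f}.ncard : ℝ)

open Pool.Agent.K6.H36.PJ

theorem lap_eq {n : ℕ} (hn : 1 ≤ n) (ε : ℝ) : lap n ε = Zl ε (2 * n) / Zl 0 (2 * n) := by
  have h : lap n ε = (∑ᶠ f ∈ {f : ZMod (2 * n) → ℤ × ℤ |
      Pool.Agent.N223.PS.IsLoop (2 * n) f}, Real.exp (-(ε * Pool.Agent.N223.PS.area (2 * n) f))) /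
      (({f : ZMod (2 * n) → ℤ × ℤ | Pool.Agent.N223.PS.IsLoop (2 * n) f}.ncard : ℕ) : ℝ) := rfl
  rw [h, finsum_LF hn, ncard_LF hn]
  rfl

theorem A_eq {n : ℕ} (hn : 1 ≤ n) : A n = mA n := by
  have h : A n = (∑ᶠ f ∈ {f : ZMod (2 * n) → ℤ × ℤ |
      Pool.Agent.N223.PS.IsLoop (2 * n) f}, (Pool.Agent.N223.PS.area (2 * n) f : ℝ)) /
      (({f : ZMod (2 * n) → ℤ × ℤ | Pool.Agent.N223.PS.IsLoop (2 * n) f}.ncard : ℕ) : ℝ) := rfl
  rw [h, finsum_LF hn, ncard_LF hn]
  rfl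

theorem small_eq {n : ℕ} (hn : 1 ≤ n) (r : ℝ) : small n r =
    (((LF (2 * n)).filter (fun f => (Pool.Agent.N223.PS.area (2 * n) f : ℝ) ≤ r)).card : ℝ) /
      Zl 0 (2 * n) := by
  have h : small n r = (({f : ZMod (2 * n) → ℤ × ℤ | Pool.Agent.N223.PS.IsLoop (2 * n) f ∧
      (Pool.Agent.N223.PS.area (2 * n) f : ℝ) ≤ r}.ncard : ℕ) : ℝ) /
      (({f : ZMod (2 * n) → ℤ × ℤ | Pool.Agent.N223.PS.IsLoop (2 * n) f}.ncard : ℕ) : ℝ) := rfl
  rw [h, ncard_LF hn]
  congr 2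
  rw [← Set.ncard_coe_finset]
  congr 1
  ext f
  rw [Finset.coe_filter]
  constructor
  · rintro ⟨h1, h2⟩
    exact ⟨(mem_LF (by omega)).2 h1, h2⟩
  · rintro ⟨h1, h2⟩
    exact ⟨(mem_LF (by omega)).1 h1, h2⟩

/-- **Theorem.** There are a function `g` and a constant `K` such that:
* `-(1/(2n)) log E_n[exp(-ε A)] → g(ε)` for all `ε ≥ 0`; `g` is concave and nondecreasing on
  `[0, ∞)`, and `g(0) = 0`;
* for all `n ≥ 2` and all `ε ≥ 0`: `E_n[exp(-ε A)] ≤ exp(ε + K (log n)² - 2 n g(ε))`, the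
  proportion of the polygons of perimeter `2 n` with area at most `r` is at most
  `exp(ε (r + 1) + K (log n)² - 2 n g(ε))` for all `r`, and
  `2 n g(ε) ≤ ε (A_n + 1) + K (log n)²`;
* if `a ≥ 1` and `g(ε) ≥ c ε^(1/a)` for all small `ε > 0`, where `c > 0`, then there is `c' > 0` with
  `A_n ≥ c' n^a (log n)^(2 - 2a)` for all `n ≥ 2`;
* if `a ≥ 1` and `A_n ≤ C n^a` for all `n ≥ 2`, then there is `C'` with
  `g(ε) ≤ C' ε^(1/a) (log(1/ε))^(2 - 2/a)` for all `0 < ε ≤ 1/2`. -/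
theorem result : ∃ (g : ℝ → ℝ) (K : ℝ),
    (∀ ε : ℝ, 0 ≤ ε → Tendsto (fun n : ℕ => -Real.log (lap n ε) / (2 * n)) atTop (𝓝 (g ε))) ∧
    ConcaveOn ℝ (Set.Ici 0) g ∧ MonotoneOn g (Set.Ici 0) ∧ g 0 = 0 ∧
    (∀ n : ℕ, 2 ≤ n → ∀ ε : ℝ, 0 ≤ ε →
      lap n ε ≤ Real.exp (ε + K * Real.log n ^ 2 - 2 * n * g ε) ∧
      (∀ r : ℝ, small n r ≤ Real.exp (ε * (r + 1) + K * Real.log n ^ 2 - 2 * n * g ε)) ∧
      2 * n * g ε ≤ ε * (A n + 1) + K * Real.log n ^ 2) ∧
    (∀ a c ε₀ : ℝ, 1 ≤ a → 0 < c → 0 < ε₀ → (∀ ε, 0 < ε → ε < ε₀ → c * ε ^ (1 / a) ≤ g ε) →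
      ∃ c' : ℝ, 0 < c' ∧ ∀ n : ℕ, 2 ≤ n → c' * ((n : ℝ) ^ a * Real.log n ^ (2 - 2 * a)) ≤ A n) ∧
    (∀ a C : ℝ, 1 ≤ a → (∀ n : ℕ, 2 ≤ n → A n ≤ C * (n : ℝ) ^ a) →
      ∃ C' : ℝ, ∀ ε : ℝ, 0 < ε → ε ≤ 1 / 2 →
        g ε ≤ C' * (ε ^ (1 / a) * Real.log (1 / ε) ^ (2 - 2 / a))) := by
  obtain ⟨K1, hK1, h1⟩ := laplace_le
  obtain ⟨K2, hK2, h2⟩ := rate_le
  have hA1 : ∀ n : ℕ, 2 ≤ n → 1 ≤ A n := fun n hn => by
    rw [A_eq (by omega)]
    exact mA_ge_one hn
  have hrate : ∀ n : ℕ, 2 ≤ n → ∀ ε : ℝ, 0 ≤ ε →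
      2 * n * gg ε ≤ ε * (A n + 1) + (K1 + K2) * Real.log n ^ 2 := by
    intro n hn ε hε
    rw [A_eq (by omega)]
    have h3 := h2 n hn ε hε
    have h4 : 0 ≤ K1 * Real.log n ^ 2 := by positivity
    linarith
  refine ⟨gg, K1 + K2, ?_, gg_concave, gg_mono, gg_zero, ?_, ?_, ?_⟩
  · intro ε hε
    refine (gg_tendsto hε).congr' ?_
    filter_upwards [eventually_ge_atTop 1] with n hn
    rw [lap_eq hn]
  · intro n hn ε hε
    have h5 : Zl ε (2 * n) / Zl 0 (2 * n) ≤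
        Real.exp (ε + (K1 + K2) * Real.log n ^ 2 - 2 * n * gg ε) := by
      refine (h1 n hn ε hε).trans (Real.exp_le_exp.2 ?_)
      have h4 : 0 ≤ K2 * Real.log n ^ 2 := by positivity
      linarith
    refine ⟨?_, ?_, hrate n hn ε hε⟩
    · rw [lap_eq (by omega)]
      exact h5
    · intro r
      rw [small_eq (by omega)]
      refine (small_le (by omega) hε r).trans ?_
      refine (mul_le_mul_of_nonneg_left h5 (Real.exp_pos _).le).trans (le_of_eq ?_)
      rw [← Real.exp_add]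
      congr 1
      ring
  · intro a c ε₀ ha hc hε₀ hG
    exact mean_ge_of (by positivity) hrate hA1 ha hc hε₀ hG
  · intro a C ha hC
    have hC0 : 0 ≤ C := by
      have h3 := (hA1 2 le_rfl).trans (hC 2 le_rfl)
      by_contra hneg
      push Not at hneg
      have h4 : C * ((2 : ℕ) : ℝ) ^ a ≤ 0 :=
        mul_nonpos_of_nonpos_of_nonneg hneg.le (by positivity)
      linarith
    exact rate_le_of (by positivity) hrate ha hC0 hC

end Pool.Agent.Results.MP_2250b1_co.AreaPressure
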