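import Pool.Agent.K6.H23.WA.Infl2T

/-!
# The mean area of inflated self-avoiding polygons

The self-avoiding polygons of perimeter `2 n` on the square lattice get the weights `exp (p area)`,
`p ≥ 0`. Let `Z n p` be the mean of `exp (p area)` under the uniform law and let `A n p` be the mean
area under the law with the weights (so `A n 0` is the mean area of the problem). At the pressures
`p = 2 h / n` the polygons have area of order `n^2`:

`(1 / (2 n)) log Z n (2 h / n) → Λ(h)`  and  `A n (2 h / n) / n^2 → Λ'(h)`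

where `Λ` is the Legendre transform of the rate function `J` of the area, given by an isoperimetric
problem for the rate function `I` of the end point of the self-avoiding walk. The bounds for `Z` hold
for all `n` and `p`, with error `O (n √p log n)`. If `I(v) ~ κ |v|^4` for `v → 0`, as expected (the
exponent `4 = 1 / (1 - ν)` belongs to `ν = 3/4`), then for `n^(-4/3) (log n)^(2/3) ≪ p ≪ 1/n`

`A n p ~ p n^3 / (4 π^2 κ)`  and  `log Z n p ~ p^2 n^3 / (8 π^2 κ)`: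

the area responds linearly to the pressure, with the response `n^3` that corresponds to a mean area
and a standard deviation of order `n^(3/2)` at `p ~ n^(-3/2)`.
-/

set_option autoImplicit false

namespace Pool.Agent.Results.MP_2250b1_co.InflatedMeanArea

open Filter Topology

/-- a closed nearest-neighbour loop on `ℤ²` with `m` steps, rooted at the origin and oriented,
that visits no vertex twice -/
def IsLoop (m : ℕ) (f : ZMod m → ℤ × ℤ) : Prop :=
  f 0 = 0 ∧ Function.Injective f ∧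
    ∀ i : ZMod m, |(f (i + 1)).1 - (f i).1| + |(f (i + 1)).2 - (f i).2| = 1

/-- the edge from `f k` to `f (k+1)` is horizontal, joins the columns `x = a` and `x = a + 1`, and
has height larger than `b`: it lies above the unit cell `[a, a+1] × [b, b+1]` -/
def Above (m : ℕ) (f : ZMod m → ℤ × ℤ) (a b : ℤ) (k : ZMod m) : Prop :=
  (((f k).1 = a ∧ (f (k + 1)).1 = a + 1) ∨ ((f k).1 = a + 1 ∧ (f (k + 1)).1 = a)) ∧ b < (f k).2

/-- the unit cell `[a, a+1] × [b, b+1]` is enclosed by the loop: the vertical ray from the cell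
upwards crosses an odd number of edges -/
def Encl (m : ℕ) (f : ZMod m → ℤ × ℤ) (c : ℤ × ℤ) : Prop :=
  Odd (Nat.card {k : ZMod m // Above m f c.1 c.2 k})

/-- the area: the number of unit cells enclosed by the loop -/
noncomputable def area (m : ℕ) (f : ZMod m → ℤ × ℤ) : ℕ := Nat.card {c : ℤ × ℤ // Encl m f c}

/-- the mean of `exp (p area)` over the self-avoiding polygons of perimeter `2 n` -/
noncomputable def Z (n : ℕ) (p : ℝ) : ℝ :=
  (∑ᶠ f ∈ {f : ZMod (2 * n) → ℤ × ℤ | IsLoop (2 * n) f}, Real.exp (p * (area (2 * n) f : ℝ))) /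
    ({f : ZMod (2 * n) → ℤ × ℤ | IsLoop (2 * n) f}.ncard : ℝ)

/-- the mean area of the self-avoiding polygons of perimeter `2 n` with the weights
`exp (p area)` -/
noncomputable def A (n : ℕ) (p : ℝ) : ℝ :=
  (∑ᶠ f ∈ {f : ZMod (2 * n) → ℤ × ℤ | IsLoop (2 * n) f},
      (area (2 * n) f : ℝ) * Real.exp (p * (area (2 * n) f : ℝ))) /
    (∑ᶠ f ∈ {f : ZMod (2 * n) → ℤ × ℤ | IsLoop (2 * n) f}, Real.exp (p * (area (2 * n) f : ℝ)))

/-- `ω` is an `n`-step self-avoiding walk on `ℤ²` started at the origin. -/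
def IsSAW (n : ℕ) (ω : Fin (n + 1) → ℤ × ℤ) : Prop :=
  ω 0 = (0, 0) ∧
  (∀ i : Fin n, |(ω i.succ).1 - (ω i.castSucc).1| + |(ω i.succ).2 - (ω i.castSucc).2| = 1) ∧
  Function.Injective ω

/-- `c_n`: the number of `n`-step self-avoiding walks from the origin -/
noncomputable def c (n : ℕ) : ℕ := Nat.card {ω : Fin (n + 1) → ℤ × ℤ // IsSAW n ω}

/-- `c_n(x)`: the number of `n`-step self-avoiding walks from the origin to `x` -/
noncomputable def cx (n : ℕ) (x : ℤ × ℤ) : ℕ :=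
  Nat.card {ω : Fin (n + 1) → ℤ × ℤ // IsSAW n ω ∧ ω (Fin.last n) = x}

/-- `P_n(ω(n) = x)`, the probability that the uniform `n`-step self-avoiding walk ends at `x` -/
noncomputable def P (n : ℕ) (x : ℤ × ℤ) : ℝ := (cx n x : ℝ) / (c n : ℝ)

/-- the costs `∑ t_i I(v_i)` of the closed polygonal curves with the successive edges `2 t_i v_i`,
where `t_i ≥ 0`, `∑ t_i = 1`, `|v_i|_1 ≤ 1` and `∑ t_i v_i = 0`, that enclose at least the signed
area `a`; the signed area of such a curve is `(1/2) ∑_{i < j} (2 t_i v_i) × (2 t_j v_j)` -/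
def costs (I : ℝ × ℝ → ℝ) (a : ℝ) : Set ℝ :=
  {c | ∃ (m : ℕ) (t : Fin m → ℝ) (v : Fin m → ℝ × ℝ), (∀ i, 0 ≤ t i) ∧ ∑ i, t i = 1 ∧
    (∀ i, |(v i).1| + |(v i).2| ≤ 1) ∧ ∑ i, t i * (v i).1 = 0 ∧ ∑ i, t i * (v i).2 = 0 ∧
    a ≤ 2 * ∑ j, ∑ i ∈ Finset.univ.filter (· < j),
      t i * t j * ((v i).1 * (v j).2 - (v j).1 * (v i).2) ∧ c = ∑ i, t i * I (v i)}

/-- the least cost of a closed polygonal curve that encloses at least the area `a` -/
noncomputable def J (I : ℝ × ℝ → ℝ) (a : ℝ) : ℝ := sInf (costs I a)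

/-- the Legendre transform `Λ(h) = sup {h a - J(a) : 0 ≤ a ≤ 1/4}` -/
noncomputable def Lam (I : ℝ × ℝ → ℝ) (h : ℝ) : ℝ :=
  sSup ((fun a => h * a - J I a) '' Set.Icc (0 : ℝ) (1 / 4))

theorem c_eq (n : ℕ) : c n = TH795.EP.c n := TH795.EP2.card_walks n

theorem cx_eq (n : ℕ) (x : ℤ × ℤ) : cx n x = TH795.EP.a n x.1 x.2 := TH795.EP2.card_walks_to n x

theorem Z_eq (n : ℕ) (p : ℝ) : Z n p = Pool.Agent.K6.H23.WA.Zf n p := rfl

theorem A_eq (n : ℕ) (p : ℝ) : A n p = Pool.Agent.K6.H23.WA.Af n p := rfl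

theorem J_eq (a : ℝ) : J Pool.Agent.Y981.L2.Rate a =
    Pool.Agent.K6.H23.WA.J Pool.Agent.Y981.L2.Rate a := by
  have h : costs Pool.Agent.Y981.L2.Rate a = Pool.Agent.K6.H23.WA.ccosts Pool.Agent.Y981.L2.Rate a :=
    rfl
  unfold J Pool.Agent.K6.H23.WA.J
  rw [h, Pool.Agent.K6.H23.WA.ccosts_eq Pool.Agent.K6.H23.WA.rateFn]

theorem Lam_eq : Lam Pool.Agent.Y981.L2.Rate =
    Pool.Agent.K6.H23.WA.Leg Pool.Agent.Y981.L2.Rate := by
  funext h
  unfold Lam Pool.Agent.K6.H23.WA.Leg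
  simp only [J_eq]

/-- **Theorem.** There are a convex function `I` on the square `|v₁| + |v₂| ≤ 1`, with
`I (v₁, v₂) = I (|v₁|, |v₂|) = I (v₂, v₁)`, and a constant `K` such that, with
`Λ(h) = sup {h a - J(a) : 0 ≤ a ≤ 1/4}`, `J(a)` the least cost `∑ t_i I(v_i)` of a closed curve of
total time `1` enclosing the area `a`:
(1) `|log P_n(ω(n) = x) + n I(x / n)| ≤ K (log n)^2` for the uniform `n`-step self-avoiding walk `ω`,
all `n ≥ 2` and every lattice point `x ≠ 0` which it can reach (`I` is the rate function of the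
end point);
(2) `|log Z n p - 2 n Λ(p n / 2)| ≤ K p n^2 / M + K M (log n)^2` for all `n ≥ 2`, `p ≥ 0` and all
`M ≥ 1` with `16 M^2 ≤ n`; so `(1/(2n)) log Z n (2 h / n) → Λ(h)` for `h ≥ 0`;
(3) `Λ` is convex and differentiable almost everywhere, and `A n (2 h / n) / n^2 → Λ'(h)` for every
`h > 0` at which it is differentiable;
(4) if `I(v) / |v|^4 → κ > 0` for `v → 0`, then for all `p_n > 0` with `n p_n → 0` and
`p_n^3 n^4 / (log n)^2 → ∞`:
`A n p_n / (p_n n^3) → 1 / (4 κ π^2)` and `log Z n p_n / (p_n^2 n^3) → 1 / (8 κ π^2)`. -/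
theorem result : ∃ (I : ℝ × ℝ → ℝ) (K : ℝ), ConvexOn ℝ {v : ℝ × ℝ | |v.1| + |v.2| ≤ 1} I ∧
    (∀ v : ℝ × ℝ, |v.1| + |v.2| ≤ 1 → I (|v.1|, |v.2|) = I v ∧ I (v.2, v.1) = I v) ∧
    (∀ n : ℕ, 2 ≤ n → ∀ x : ℤ × ℤ, x ≠ 0 → (x.1 + x.2 - n) % 2 = 0 → |x.1| + |x.2| ≤ n →
        |Real.log (P n x) + n * I ((x.1 : ℝ) / n, (x.2 : ℝ) / n)| ≤ K * Real.log n ^ 2) ∧
    (∀ n : ℕ, 2 ≤ n → ∀ M : ℕ, 1 ≤ M → 16 * M ^ 2 ≤ n → ∀ p : ℝ, 0 ≤ p →
      |Real.log (Z n p) - 2 * n * Lam I (p * n / 2)| ≤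
        K * p * n ^ 2 / M + K * M * Real.log n ^ 2) ∧
    (∀ h : ℝ, 0 ≤ h →
      Tendsto (fun n : ℕ => Real.log (Z n (2 * h / n)) / (2 * n)) atTop (𝓝 (Lam I h))) ∧
    ConvexOn ℝ Set.univ (Lam I) ∧
    (∀ᵐ h : ℝ, DifferentiableAt ℝ (Lam I) h) ∧
    (∀ h : ℝ, 0 < h → DifferentiableAt ℝ (Lam I) h →
      Tendsto (fun n : ℕ => A n (2 * h / n) / (n : ℝ) ^ 2) atTop (𝓝 (deriv (Lam I) h))) ∧
    (∀ κ : ℝ, 0 < κ →
      Tendsto (fun v : ℝ × ℝ => I v / (√(v.1 ^ 2 + v.2 ^ 2)) ^ 4) (𝓝[≠] 0) (𝓝 κ) →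
      ∀ p : ℕ → ℝ, (∀ᶠ n in atTop, 0 < p n) →
      Tendsto (fun n : ℕ => p n * n) atTop (𝓝 0) →
      Tendsto (fun n : ℕ => (p n) ^ 3 * (n : ℝ) ^ 4 / Real.log n ^ 2) atTop atTop →
      Tendsto (fun n : ℕ => A n (p n) / (p n * (n : ℝ) ^ 3)) atTop
        (𝓝 (1 / (4 * (κ * Real.pi ^ 2)))) ∧
      Tendsto (fun n : ℕ => Real.log (Z n (p n)) / ((p n) ^ 2 * (n : ℝ) ^ 3)) atTop
        (𝓝 (1 / (8 * (κ * Real.pi ^ 2))))) := by
  obtain ⟨K1, hK1, h1⟩ := Pool.Agent.Y981.L2.ldp_words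
  obtain ⟨K2, C, hK2, hC, h2⟩ := Pool.Agent.K6.H23.WA.Zf_unif
  refine ⟨Pool.Agent.Y981.L2.Rate, K1 + K2 + C, Pool.Agent.Y981.L2.convex_rate, ?_⟩
  rw [Lam_eq]
  simp only [Z_eq, A_eq]
  refine ⟨?_, ?_, ?_, ?_, ?_, ?_, ?_, ?_⟩
  · intro v hv
    exact ⟨Pool.Agent.K6.H5.JW.rate_abs v hv, Pool.Agent.K6.H5.JW.rate_sw v⟩
  · intro n hn x hx hpar hle
    have hL : 0 ≤ Real.log (n : ℝ) ^ 2 := by positivity
    have h := h1 n hn x.1 x.2 hx hpar hle
    have e1 : K1 * Real.log (n : ℝ) ^ 2 ≤ (K1 + K2 + C) * Real.log (n : ℝ) ^ 2 := by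
      apply mul_le_mul_of_nonneg_right _ hL
      linarith
    unfold P
    rw [c_eq, cx_eq]
    linarith
  · intro n hn M hM hMn p hp
    refine (h2 n hn M hM hMn p hp).trans ?_
    have hM0 : (0 : ℝ) < M := by exact_mod_cast hM
    have e1 : p * (n : ℝ) ^ 2 * (C / M) = C * (p * n ^ 2 / M) := by ring
    have e2 : (K1 + K2 + C) * p * (n : ℝ) ^ 2 / M = (K1 + K2 + C) * (p * n ^ 2 / M) := by ring
    have e3 : K2 * M * Real.log (n : ℝ) ^ 2 = K2 * (M * Real.log n ^ 2) := by ring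
    have e4 : (K1 + K2 + C) * M * Real.log (n : ℝ) ^ 2 = (K1 + K2 + C) * (M * Real.log n ^ 2) := by
      ring
    rw [e1, e2, e3, e4]
    apply add_le_add
    · apply mul_le_mul_of_nonneg_right _ (by positivity)
      linarith
    · apply mul_le_mul_of_nonneg_right _ (by positivity)
      linarith
  · intro h hh
    exact Pool.Agent.K6.H23.WA.Zf_tendsto hh
  · exact Pool.Agent.K6.H23.WA.Leg_convex Pool.Agent.K6.H23.WA.rateFn
  · exact Pool.Agent.K6.H23.WA.Leg_ae Pool.Agent.K6.H23.WA.rateFn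
  · intro h hh hd
    exact Pool.Agent.K6.H23.WA.Af_tendsto hh hd.hasDerivAt
  · intro κ hκ hrad p hp h0 h1
    have hc : 0 < κ * Real.pi ^ 2 := by
      have := Real.pi_pos
      positivity
    have hJ : Tendsto (fun a : ℝ => Pool.Agent.K6.H23.WA.J Pool.Agent.Y981.L2.Rate a / a ^ 2)
        (𝓝[>] 0) (𝓝 (κ * Real.pi ^ 2)) := by
      have h3 := Pool.Agent.K6.H23.WA.J_radial Pool.Agent.K6.H23.WA.rateFn (θ := 4) (by norm_num) hκ
        (hrad.congr fun v => by norm_cast)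
      have e1 : (4 : ℝ) / 2 = 2 := by norm_num
      rw [e1] at h3
      simpa only [Real.rpow_two] using h3
    exact ⟨Pool.Agent.K6.H23.WA.Af_mod hc hJ hp h0 h1, Pool.Agent.K6.H23.WA.Zf_mod hc hJ hp h0 h1⟩

end Pool.Agent.Results.MP_2250b1_co.InflatedMeanArea
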