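import Pool.Agent.K6.H5.WHA.Box

/-!
# The joint law of width, height and area of self-avoiding polygons

Let `W`, `H` and `A` be the width, the height and the area of the uniform self-avoiding polygon of
perimeter `2 n` on the square lattice, and let `I` be the rate function of the end point of the
self-avoiding walk.  For all `x, y, a` in the interior of the set of the triples which are possible

`-(1 / (2 n)) log P (W ≥ x n, H ≥ y n, A ≥ a n^2) → J(x, y, a)`,

where `J(x, y, a)` is the least cost `∑ t_i I(v_i)` of a closed polygonal curve that has the velocity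
`2 v_i` during the time `t_i`, with total time `1`, and has width at least `x`, height at least `y`
and encloses the area `a`.  The bounds hold at every `n`, with the error `O (M (log n)^2)` in the
exponent and the thresholds shifted by `O (1 / M)`, for every `M ≤ √n / 4`.  So the law of the area
given the box, and of the box given the area, is known on the exponential scale.  The function
`(x, y, b) ↦ J(x, y, b^2)` is convex (Minkowski's inequality), `J(x, y, a) = I(x, y)` if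
`a ≤ x y / 2` (the rhombus), and the possible triples are those of the rectangles.

Proof.  Upper bound: the polygon is sampled at `M` times; its area is at most the largest area of a
closed polygon with the sampled increments up to reflections and rearrangement, and half the
variation of the sampled polygon is at least the width (height).  Lower bound: walks that stay below
their chords are glued to a convex chain, four reflected copies of the chain surround the region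
below the chain and its reflections, and the loop of the surrounding walk is extracted; every cell
of the region is enclosed, so width, height and area are as large as wanted.
-/

set_option autoImplicit false

namespace Pool.Agent.Results.MP_2250b1_co.WidthHeightArea

open Filter Topology

/-- a closed nearest-neighbour loop on `ℤ²` with `m` steps, rooted at the origin and oriented,
that visits no vertex twice -/
def IsLoop (m : ℕ) (f : ZMod m → ℤ × ℤ) : Prop :=
  f 0 = 0 ∧ Function.Injective f ∧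
    ∀ i : ZMod m, |(f (i + 1)).1 - (f i).1| + |(f (i + 1)).2 - (f i).2| = 1

/-- the width (horizontal extent) of a loop -/
noncomputable def width (m : ℕ) (f : ZMod m → ℤ × ℤ) : ℕ :=
  sSup {w : ℕ | ∃ i j, w = ((f i).1 - (f j).1).natAbs}

/-- the height (vertical extent) of a loop -/
noncomputable def height (m : ℕ) (f : ZMod m → ℤ × ℤ) : ℕ :=
  sSup {w : ℕ | ∃ i j, w = ((f i).2 - (f j).2).natAbs}

/-- the edge from `f k` to `f (k+1)` is horizontal, joins the columns `x = a` and `x = a + 1`, and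
has height larger than `b`: it lies above the unit cell `[a, a+1] × [b, b+1]` -/
def Above (m : ℕ) (f : ZMod m → ℤ × ℤ) (a b : ℤ) (k : ZMod m) : Prop :=
  (((f k).1 = a ∧ (f (k + 1)).1 = a + 1) ∨ ((f k).1 = a + 1 ∧ (f (k + 1)).1 = a)) ∧ b < (f k).2

/-- the unit cell `[a, a+1] × [b, b+1]` is enclosed by the loop: the vertical ray from the cell
upwards crosses an odd number of edges -/
def Encl (m : ℕ) (f : ZMod m → ℤ × ℤ) (c : ℤ × ℤ) : Prop :=
  Odd (Nat.card {k : ZMod m // Above m f c.1 c.2 k})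

/-- the area: the number of unit cells enclosed by the loop -/
noncomputable def area (m : ℕ) (f : ZMod m → ℤ × ℤ) : ℕ := Nat.card {c : ℤ × ℤ // Encl m f c}

/-- `P (W ≥ x, H ≥ y, A ≥ r)`: the proportion of the self-avoiding polygons of perimeter `2 n` with
width at least `x`, height at least `y` and area at least `r` -/
noncomputable def large (n : ℕ) (x y r : ℝ) : ℝ :=
  ({f : ZMod (2 * n) → ℤ × ℤ | IsLoop (2 * n) f ∧ x ≤ width (2 * n) f ∧ y ≤ height (2 * n) f ∧
      r ≤ area (2 * n) f}.ncard : ℝ) /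
    ({f : ZMod (2 * n) → ℤ × ℤ | IsLoop (2 * n) f}.ncard : ℝ)

/-- `ω` is an `n`-step self-avoiding walk on `ℤ²` started at the origin. -/
def IsSAW (n : ℕ) (ω : Fin (n + 1) → ℤ × ℤ) : Prop :=
  ω 0 = (0, 0) ∧
  (∀ i : Fin n, |(ω i.succ).1 - (ω i.castSucc).1| + |(ω i.succ).2 - (ω i.castSucc).2| = 1) ∧
  Function.Injective ω

/-- `c_n`: the number of `n`-step self-avoiding walks from the origin -/
noncomputable def c (n : ℕ) : ℕ := Nat.card {ω : Fin (n + 1) → ℤ × ℤ // IsSAW n ω}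

/-- `c_n(x)`: the number of `n`-step self-avoiding walks from the origin to `x` -/
noncomputable def cx (n : ℕ) (x : ℤ × ℤ) : ℕ :=
  Nat.card {ω : Fin (n + 1) → ℤ × ℤ // IsSAW n ω ∧ ω (Fin.last n) = x}

/-- `P_n(ω(n) = x)`, the probability that the uniform `n`-step self-avoiding walk ends at `x` -/
noncomputable def P (n : ℕ) (x : ℤ × ℤ) : ℝ := (cx n x : ℝ) / (c n : ℝ)

/-- the costs `∑ t_i I(v_i)` of the closed polygonal curves with the successive edges `2 t_i v_i`,
where `t_i ≥ 0`, `∑ t_i = 1`, `|v_i|_1 ≤ 1` and `∑ t_i v_i = 0`, for which two vertices have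
horizontal distance at least `x`, two vertices have vertical distance at least `y`, and the signed
area `(1/2) ∑_{i < j} (2 t_i v_i) × (2 t_j v_j)` is at least `a` -/
def costs (I : ℝ × ℝ → ℝ) (x y a : ℝ) : Set ℝ :=
  {c | ∃ (m : ℕ) (t : Fin m → ℝ) (v : Fin m → ℝ × ℝ), (∀ i, 0 ≤ t i) ∧ ∑ i, t i = 1 ∧
    (∀ i, |(v i).1| + |(v i).2| ≤ 1) ∧ ∑ i, t i * (v i).1 = 0 ∧ ∑ i, t i * (v i).2 = 0 ∧
    (∃ j k : ℕ, x ≤ |∑ i ∈ Finset.univ.filter (fun i : Fin m => j ≤ (i : ℕ) ∧ (i : ℕ) < k),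
      2 * t i * (v i).1|) ∧
    (∃ j k : ℕ, y ≤ |∑ i ∈ Finset.univ.filter (fun i : Fin m => j ≤ (i : ℕ) ∧ (i : ℕ) < k),
      2 * t i * (v i).2|) ∧
    a ≤ 2 * ∑ j, ∑ i ∈ Finset.univ.filter (· < j),
      t i * t j * ((v i).1 * (v j).2 - (v j).1 * (v i).2) ∧ c = ∑ i, t i * I (v i)}

/-- the least cost of a closed polygonal curve of width at least `x` and height at least `y` that
encloses at least the area `a` -/
noncomputable def J (I : ℝ × ℝ → ℝ) (x y a : ℝ) : ℝ := sInf (costs I x y a)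

/-- there is a rectangle with half perimeter at most `1`, width at least `x`, height at least `y`
and area at least `a` -/
def Possible (x y a : ℝ) : Prop :=
  ∃ X Y : ℝ, 0 ≤ X ∧ 0 ≤ Y ∧ x ≤ X ∧ y ≤ Y ∧ X + Y ≤ 1 ∧ a ≤ X * Y

/-- the same with strict inequalities -/
def Inner (x y a : ℝ) : Prop :=
  ∃ X Y : ℝ, 0 ≤ X ∧ 0 ≤ Y ∧ x < X ∧ y < Y ∧ X + Y < 1 ∧ a < X * Y

theorem c_eq (n : ℕ) : c n = TH795.EP.c n := TH795.EP2.card_walks n

theorem cx_eq (n : ℕ) (x : ℤ × ℤ) : cx n x = TH795.EP.a n x.1 x.2 := TH795.EP2.card_walks_to n x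

theorem large_eq (n : ℕ) (x y r : ℝ) : large n x y r = Pool.Agent.K6.H5.WHA.pr3 n x y r := rfl

theorem J_eq (x y a : ℝ) : J Pool.Agent.Y981.L2.Rate x y a =
    Pool.Agent.K6.H5.WHA.J3 Pool.Agent.Y981.L2.Rate x y a := by
  have h : costs Pool.Agent.Y981.L2.Rate x y a =
    Pool.Agent.K6.H5.WHA.ccosts3 Pool.Agent.Y981.L2.Rate x y a := rfl
  unfold J Pool.Agent.K6.H5.WHA.J3
  rw [h, Pool.Agent.K6.H5.WHA.ccosts3_eq Pool.Agent.K6.H23.WA.rateFn]

/-- **Theorem.** There are a convex function `I` on the square `|v₁| + |v₂| ≤ 1`, with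
`I (v₁, v₂) = I (|v₁|, |v₂|) = I (v₂, v₁)`, and a constant `K` such that, with `J(x, y, a)` the
least cost of a closed curve of total time `1`, width at least `x`, height at least `y` and area at
least `a`:
(1) `|log P_n(ω(n) = z) + n I(z / n)| ≤ K (log n)^2` for the uniform `n`-step self-avoiding walk `ω`,
all `n ≥ 2` and every lattice point `z ≠ 0` which it can reach (`I` is the rate function of the
end point);
(2) `-(1/(2n)) log P(W ≥ x n, H ≥ y n, A ≥ a n^2) → J(x, y, a)` for all inner triples `(x, y, a)`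
with `a ≥ 0`;
(3) for all `n ≥ 2`, `M ≥ 1` with `16 M^2 ≤ n`, all real `x, y` and all `r ≥ 0`:
`P(W ≥ x, H ≥ y, A ≥ r) ≤ exp(- 2 n J(x/n - K/M, y/n - K/M, r/n^2 - K/M) + K M (log n)^2)`, and
`P(W ≥ x, H ≥ y, A ≥ r) ≥ exp(- 2 n J(x/n + K/M, y/n + K/M, r/n^2 + K/M) - K M (log n)^2)` if the
triple of the right hand side is possible;
(4) for all inner triples and all `x' ≤ x`, `y' ≤ y`, `0 ≤ a' ≤ a`: the conditional probability of
`W ≥ x n, H ≥ y n, A ≥ a n^2` given `W ≥ x' n, H ≥ y' n, A ≥ a' n^2` is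
`exp(- 2 n (J(x, y, a) - J(x', y', a')) + o(n))`;
(5) `(x, y, b) ↦ J(x, y, b^2)` is convex on the possible triples with `b ≥ 0`;
(6) `J(x, y, a) = I(x, y)` for `x, y ≥ 0`, `x + y ≤ 1` and `a ≤ x y / 2`; and `J(x, y, a) ≥ t` if
`I(X, Y) ≥ t` for all `X ≥ x`, `Y ≥ y` with `X, Y ≥ 0`, `X + Y ≤ 1` and `X Y ≥ a`;
(7) if some polygon of perimeter `2 n` has width at least `x`, height at least `y` and area at least
`r`, then `(x/n, y/n, r/n^2)` is possible. -/
theorem result : ∃ (I : ℝ × ℝ → ℝ) (K : ℝ), ConvexOn ℝ {v : ℝ × ℝ | |v.1| + |v.2| ≤ 1} I ∧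
    (∀ v : ℝ × ℝ, |v.1| + |v.2| ≤ 1 → I (|v.1|, |v.2|) = I v ∧ I (v.2, v.1) = I v) ∧
    (∀ n : ℕ, 2 ≤ n → ∀ x : ℤ × ℤ, x ≠ 0 → (x.1 + x.2 - n) % 2 = 0 → |x.1| + |x.2| ≤ n →
        |Real.log (P n x) + n * I ((x.1 : ℝ) / n, (x.2 : ℝ) / n)| ≤ K * Real.log n ^ 2) ∧
    (∀ x y a : ℝ, 0 ≤ a → Inner x y a →
      Tendsto (fun n : ℕ => -Real.log (large n (x * n) (y * n) (a * (n : ℝ) ^ 2)) / (2 * n)) atTop
        (𝓝 (J I x y a))) ∧
    (∀ n : ℕ, 2 ≤ n → ∀ M : ℕ, 1 ≤ M → 16 * M ^ 2 ≤ n → ∀ x y r : ℝ, 0 ≤ r →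
      large n x y r ≤ Real.exp (-(2 * n * J I (x / n - K / M) (y / n - K / M) (r / n ^ 2 - K / M) -
        K * M * Real.log n ^ 2)) ∧
      (Possible (x / n + K / M) (y / n + K / M) (r / n ^ 2 + K / M) →
        Real.exp (-(2 * n * J I (x / n + K / M) (y / n + K / M) (r / n ^ 2 + K / M) +
          K * M * Real.log n ^ 2)) ≤ large n x y r)) ∧
    (∀ x y a x' y' a' : ℝ, Inner x y a → x' ≤ x → y' ≤ y → 0 ≤ a' → a' ≤ a →
      Tendsto (fun n : ℕ => -Real.log (large n (x * n) (y * n) (a * (n : ℝ) ^ 2) /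
        large n (x' * n) (y' * n) (a' * (n : ℝ) ^ 2)) / (2 * n)) atTop
        (𝓝 (J I x y a - J I x' y' a'))) ∧
    ConvexOn ℝ {p : ℝ × ℝ × ℝ | 0 ≤ p.2.2 ∧ Possible p.1 p.2.1 (p.2.2 ^ 2)}
      (fun p => J I p.1 p.2.1 (p.2.2 ^ 2)) ∧
    (∀ x y a : ℝ, 0 ≤ x → 0 ≤ y → x + y ≤ 1 → a ≤ x * y / 2 → J I x y a = I (x, y)) ∧
    (∀ x y a t : ℝ, Possible x y a → (∀ X Y : ℝ, 0 ≤ X → 0 ≤ Y → x ≤ X → y ≤ Y → X + Y ≤ 1 →
      a ≤ X * Y → t ≤ I (X, Y)) → t ≤ J I x y a) ∧
    (∀ n : ℕ, 1 ≤ n → ∀ x y r : ℝ, 0 < large n x y r → Possible (x / n) (y / n) (r / n ^ 2)) := by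
  obtain ⟨K1, hK1, h1⟩ := Pool.Agent.Y981.L2.ldp_words
  obtain ⟨K2, C, hK2, hC, h2⟩ := Pool.Agent.K6.H5.WHA.pr3_unif
  refine ⟨Pool.Agent.Y981.L2.Rate, K1 + K2 + C, Pool.Agent.Y981.L2.convex_rate, ?_, ?_, ?_, ?_, ?_,
    ?_, ?_, ?_, ?_⟩
  · intro v hv
    exact ⟨Pool.Agent.K6.H5.JW.rate_abs v hv, Pool.Agent.K6.H5.JW.rate_sw v⟩
  · intro n hn x hx hpar hle
    have hL : 0 ≤ Real.log (n : ℝ) ^ 2 := by positivity
    have h := h1 n hn x.1 x.2 hx hpar hle
    have e1 : K1 * Real.log (n : ℝ) ^ 2 ≤ (K1 + K2 + C) * Real.log (n : ℝ) ^ 2 := by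
      apply mul_le_mul_of_nonneg_right _ hL
      linarith
    unfold P
    rw [c_eq, cx_eq]
    linarith
  · intro x y a ha hs
    simp only [large_eq, J_eq]
    exact Pool.Agent.K6.H5.WHA.pr3_tendsto ha hs
  · intro n hn M hM hMn x y r hr
    simp only [large_eq, J_eq]
    obtain ⟨g0, g1, g2⟩ := h2 n hn M hM hMn x y r hr
    have hn0 : (0 : ℝ) < n := by exact_mod_cast (by omega : 0 < n)
    have hM0 : (0 : ℝ) < M := by exact_mod_cast hM
    have hL : 0 ≤ M * Real.log (n : ℝ) ^ 2 := by positivity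
    have e1 : K2 * (M * Real.log (n : ℝ) ^ 2) ≤ (K1 + K2 + C) * (M * Real.log (n : ℝ) ^ 2) := by
      apply mul_le_mul_of_nonneg_right _ hL
      linarith
    have e2 : C / (M : ℝ) ≤ (K1 + K2 + C) / M := by
      gcongr
      linarith
    constructor
    · rcases lt_or_ge 0 (Pool.Agent.K6.H5.WHA.pr3 n x y r) with h0 | h0
      · have hmono := Pool.Agent.K6.H5.WHA.J3_mono Pool.Agent.K6.H23.WA.rateFn
          (show x / (n : ℝ) - (K1 + K2 + C) / M ≤ x / n - C / M by linarith)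
          (show y / (n : ℝ) - (K1 + K2 + C) / M ≤ y / n - C / M by linarith)
          (show r / (n : ℝ) ^ 2 - (K1 + K2 + C) / M ≤ r / n ^ 2 - C / M by linarith) (g0 h0)
        refine g1.trans (Real.exp_le_exp.2 ?_)
        have := mul_le_mul_of_nonneg_left hmono (show (0 : ℝ) ≤ 2 * n by positivity)
        linarith
      · exact h0.trans (Real.exp_pos _).le
    · intro hf
      have hmono := Pool.Agent.K6.H5.WHA.J3_mono Pool.Agent.K6.H23.WA.rateFn
        (show x / (n : ℝ) + C / M ≤ x / n + (K1 + K2 + C) / M by linarith)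
        (show y / (n : ℝ) + C / M ≤ y / n + (K1 + K2 + C) / M by linarith)
        (show r / (n : ℝ) ^ 2 + C / M ≤ r / n ^ 2 + (K1 + K2 + C) / M by linarith) hf
      refine le_trans (Real.exp_le_exp.2 ?_) (g2 (Pool.Agent.K6.H5.WHA.Feas.mono hf (by linarith)
        (by linarith) (by linarith)))
      have := mul_le_mul_of_nonneg_left hmono (show (0 : ℝ) ≤ 2 * n by positivity)
      linarith
  · intro x y a x' y' a' hs hx hy ha0 ha
    simp only [large_eq, J_eq]
    exact Pool.Agent.K6.H5.WHA.cond_tendsto (ha0.trans ha) hs hx hy ha ha0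
  · simp only [J_eq]
    have key : ∀ ⦃p q : ℝ × ℝ × ℝ⦄, 0 ≤ p.2.2 → Possible p.1 p.2.1 (p.2.2 ^ 2) → 0 ≤ q.2.2 →
        Possible q.1 q.2.1 (q.2.2 ^ 2) → ∀ s r : ℝ, 0 ≤ s → 0 ≤ r → s + r = 1 →
        Pool.Agent.K6.H5.WHA.Feas (s * p.1 + r * q.1) (s * p.2.1 + r * q.2.1)
          ((s * p.2.2 + r * q.2.2) ^ 2) ∧
        Pool.Agent.K6.H5.WHA.J3 Pool.Agent.Y981.L2.Rate (s * p.1 + r * q.1)
          (s * p.2.1 + r * q.2.1) ((s * p.2.2 + r * q.2.2) ^ 2) ≤
        s * Pool.Agent.K6.H5.WHA.J3 Pool.Agent.Y981.L2.Rate p.1 p.2.1 (p.2.2 ^ 2) +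
        r * Pool.Agent.K6.H5.WHA.J3 Pool.Agent.Y981.L2.Rate q.1 q.2.1 (q.2.2 ^ 2) := by
      intro p q hp hp' hq hq' s r hs hr hsr
      have h := Pool.Agent.K6.H5.WHA.J3_mix Pool.Agent.K6.H23.WA.rateFn hp' hq' hs hr hsr
      rwa [Real.sqrt_sq hp, Real.sqrt_sq hq] at h
    refine ⟨?_, ?_⟩
    · intro p hp q hq s r hs hr hsr
      refine ⟨?_, (key hp.1 hp.2 hq.1 hq.2 s r hs hr hsr).1⟩
      exact add_nonneg (mul_nonneg hs hp.1) (mul_nonneg hr hq.1)
    · intro p hp q hq s r hs hr hsr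
      exact (key hp.1 hp.2 hq.1 hq.2 s r hs hr hsr).2
  · intro x y a hx hy hxy ha
    rw [J_eq]
    exact Pool.Agent.K6.H5.WHA.J3_eq Pool.Agent.K6.H23.WA.rateFn hx hy hxy ha
  · intro x y a t hf ht
    rw [J_eq]
    apply le_csInf (Pool.Agent.K6.H5.WHA.costs3_nonempty hf)
    rintro c ⟨m, t', v, ht', ht1, hv', g1, g2, g3, rfl⟩
    refine le_trans ?_ (Pool.Agent.K6.H5.WHA.jensen Pool.Agent.K6.H23.WA.rateFn ht' ht1 hv')
    exact ht _ _ (Pool.Agent.K6.H5.WHA.TX_nonneg ht') (Pool.Agent.K6.H5.WHA.TY_nonneg ht') g1 g2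
      (Pool.Agent.K6.H5.WHA.TXY_le ht' ht1 hv') (g3.trans (Pool.Agent.K6.H5.WHA.Mf_le_mul ht'))
  · intro n hn x y r h
    exact Pool.Agent.K6.H5.WHA.feas_of_pos hn h

end Pool.Agent.Results.MP_2250b1_co.WidthHeightArea
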